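import Mathlib

namespace Pool.Agent.P.MP_ced62d_co

/-- `T` is an `H`-tiling of the ordered graph `G`: a set of order-preserving injections sending
edges to edges, with pairwise disjoint images. -/
def IsOrdTiling {h n : ℕ} (H : SimpleGraph (Fin h)) (G : SimpleGraph (Fin n))
    (T : Set (Fin h ↪o Fin n)) : Prop :=
  (∀ f ∈ T, ∀ a b, H.Adj a b → G.Adj (f a) (f b)) ∧
    T.PairwiseDisjoint (fun f => Set.range f)

/-- The vertices lying in no member of `T`. -/
def uncoveredVerts {h n : ℕ} (T : Set (Fin h ↪o Fin n)) : Set (Fin n) :=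
  {v | ∀ f ∈ T, v ∉ Set.range f}

/-- Least size of a colour class over all proper `χ(F)`-colourings of `F`. -/
noncomputable def leastClassSize {m : ℕ} (F : SimpleGraph (Fin m)) : ℕ :=
  sInf {s : ℕ | ∃ (c : F.Coloring (Fin F.chromaticNumber.toNat))
    (i : Fin F.chromaticNumber.toNat), s = (c.colorClass i).ncard}

/-- The critical chromatic number of an unordered graph. -/
noncomputable def critChrom {m : ℕ} (F : SimpleGraph (Fin m)) : ℝ :=
  ((F.chromaticNumber.toNat : ℝ) - 1) * m / ((m : ℝ) - leastClassSize F)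

/-- `B` is a complete multipartite graph (parts: the fibres of `p`) such that for every order `σ`
of the parts and every interval labelling `φ` relative to it, some ordered blow-up has a perfect
`H`-tiling. -/
def IsBottlegraph {h m : ℕ} (H : SimpleGraph (Fin h)) (B : SimpleGraph (Fin m)) : Prop :=
  ∃ (k : ℕ) (p : Fin m → Fin k), 0 < k ∧ Function.Surjective p ∧
    (∀ x y, B.Adj x y ↔ p x ≠ p y) ∧
    ∀ (σ : Equiv.Perm (Fin k)) (φ : Equiv.Perm (Fin m)),
      (∀ x y, σ (p x) < σ (p y) → φ x < φ y) →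
      ∃ t : ℕ, 0 < t ∧ ∃ T : Set (Fin h ↪o Fin (m * t)),
        IsOrdTiling H (B.comap fun v : Fin (m * t) => φ.symm v.divNat) T ∧ uncoveredVerts T = ∅

/-- The ordered critical chromatic number. -/
noncomputable def ordCritChrom {h : ℕ} (H : SimpleGraph (Fin h)) : ℝ :=
  sInf {x : ℝ | ∃ (m : ℕ) (B : SimpleGraph (Fin m)), IsBottlegraph H B ∧ x = critChrom B}

end Pool.Agent.P.MP_ced62d_co
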