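import Pool.Agent.P.MP_ced62d_co.Defs

namespace Pool.Agent.P.MP_ced62d_co

open SimpleGraph

/-- The ordered graph K_{2,2,2} with parts {0,1}, {2,3}, {4,5}. -/
def octa : SimpleGraph (Fin (3 * 2)) := (⊤ : SimpleGraph (Fin 3)).comap fun v => v.divNat

lemma octa_adj (a b : Fin (3 * 2)) : octa.Adj a b ↔ a.val / 2 ≠ b.val / 2 := by
  simp [octa, Fin.ext_iff, Fin.coe_divNat]

lemma bottle_top : IsBottlegraph octa (⊤ : SimpleGraph (Fin 3)) := by
  refine ⟨3, id, by norm_num, Function.surjective_id, fun x y => by simp, ?_⟩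
  intro σ φ _
  refine ⟨2, by norm_num, {OrderEmbedding.ofStrictMono id strictMono_id}, ⟨?_, ?_⟩, ?_⟩
  · intro f hf a b hab
    rw [Set.mem_singleton_iff] at hf
    subst hf
    simpa [octa] using hab
  · exact Set.pairwiseDisjoint_singleton _ _
  · ext v
    simp [uncoveredVerts]

lemma least_le {m : ℕ} (F : SimpleGraph (Fin m))
    (c : F.Coloring (Fin F.chromaticNumber.toNat)) (i : Fin F.chromaticNumber.toNat) :
    leastClassSize F ≤ (c.colorClass i).ncard :=
  Nat.sInf_le ⟨c, i, rfl⟩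

lemma crit_top_le : critChrom (⊤ : SimpleGraph (Fin 3)) ≤ 3 := by
  have hχ : (⊤ : SimpleGraph (Fin 3)).chromaticNumber.toNat = 3 := by
    rw [chromaticNumber_top]; simp
  obtain ⟨c⟩ := (⊤ : SimpleGraph (Fin 3)).colorable_chromaticNumber_of_fintype
  have h1 : leastClassSize (⊤ : SimpleGraph (Fin 3)) ≤ 1 := by
    refine (least_le _ c (c 0)).trans ?_
    rw [Set.ncard_le_one_iff_subsingleton]
    intro x hx y hy
    by_contra hne
    exact c.valid (by simpa using hne) (hx.trans hy.symm)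
  have h1' : (leastClassSize (⊤ : SimpleGraph (Fin 3)) : ℝ) ≤ 1 := by exact_mod_cast h1
  unfold critChrom
  rw [hχ, div_le_iff₀ (by push_cast; linarith)]
  push_cast
  linarith

lemma one_le_crit {m : ℕ} (F : SimpleGraph (Fin m)) {x y : Fin m} (hxy : F.Adj x y) :
    1 ≤ critChrom F := by
  obtain ⟨c⟩ := F.colorable_chromaticNumber_of_fintype
  have h2 : 2 ≤ F.chromaticNumber.toNat := by
    have h := two_le_chromaticNumber_of_adj hxy
    have hne : F.chromaticNumber ≠ ⊤ :=
      chromaticNumber_ne_top_iff_exists.2 ⟨_, F.colorable_of_fintype⟩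
    rw [← ENat.natCast_toNat hne] at h
    exact_mod_cast h
  have hlt : leastClassSize F < m := by
    refine lt_of_le_of_lt (least_le F c (c x)) ?_
    have hss : c.colorClass (c x) ⊂ Set.univ := by
      refine Set.ssubset_univ_iff.2 ?_
      intro h
      have : y ∈ c.colorClass (c x) := by rw [h]; trivial
      exact c.valid hxy (Eq.symm this)
    have := Set.ncard_lt_ncard hss
    simpa [Set.ncard_univ] using this
  have hlt' : (leastClassSize F : ℝ) < m := by exact_mod_cast hlt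
  have h2' : (2 : ℝ) ≤ F.chromaticNumber.toNat := by exact_mod_cast h2
  have h0 : (0 : ℝ) ≤ leastClassSize F := Nat.cast_nonneg _
  unfold critChrom
  rw [le_div_iff₀ (by linarith)]
  nlinarith

lemma bottle_adj {m : ℕ} {B : SimpleGraph (Fin m)} (hB : IsBottlegraph octa B) :
    ∃ x y, B.Adj x y := by
  obtain ⟨k, p, hk, hp, hadj, hall⟩ := hB
  by_cases hk1 : k = 1
  · subst hk1
    obtain ⟨t, ht, T, ⟨hT, _⟩, hU⟩ := hall 1 1 (fun x y h => by
      exfalso
      have := Subsingleton.elim ((1 : Equiv.Perm (Fin 1)) (p x)) ((1 : Equiv.Perm (Fin 1)) (p y))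
      exact absurd h (by rw [this]; exact lt_irrefl _))
    obtain ⟨x0, _⟩ := hp 0
    have hm : 0 < m * t := Nat.mul_pos x0.pos ht
    have : (⟨0, hm⟩ : Fin (m * t)) ∉ uncoveredVerts T := by rw [hU]; exact Set.notMem_empty _
    simp only [uncoveredVerts, Set.mem_ofPred_eq, not_forall] at this
    obtain ⟨f, hf, _⟩ := this
    have h := hT f hf ⟨0, by norm_num⟩ ⟨2, by norm_num⟩ ((octa_adj _ _).2 (by norm_num))
    exact ⟨_, _, h⟩
  · have hk2 : 1 < k := by omega
    obtain ⟨x, hx⟩ := hp ⟨0, hk⟩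
    obtain ⟨y, hy⟩ := hp ⟨1, hk2⟩
    refine ⟨x, y, (hadj x y).2 ?_⟩
    rw [hx, hy]
    simp

lemma ordCrit_bounds : 1 ≤ ordCritChrom octa ∧ ordCritChrom octa ≤ 3 := by
  have hlow : ∀ x ∈ {x : ℝ | ∃ (m : ℕ) (B : SimpleGraph (Fin m)),
      IsBottlegraph octa B ∧ x = critChrom B}, 1 ≤ x := by
    rintro x ⟨m, B, hB, rfl⟩
    obtain ⟨a, b, hab⟩ := bottle_adj hB
    exact one_le_crit B hab
  have hmem : critChrom (⊤ : SimpleGraph (Fin 3)) ∈ {x : ℝ | ∃ (m : ℕ) (B : SimpleGraph (Fin m)),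
      IsBottlegraph octa B ∧ x = critChrom B} := ⟨3, ⊤, bottle_top, rfl⟩
  exact ⟨le_csInf ⟨_, hmem⟩ hlow, (csInf_le ⟨1, hlow⟩ hmem).trans crit_top_le⟩

/-- A graph on `p * p` vertices of minimum degree at least `p - 1` in which two distinct vertices
have at most one common neighbour. -/
lemma exists_c4free (p : ℕ) [hp : Fact p.Prime] :
    ∃ Γ : SimpleGraph (Fin (p * p)), (∀ v, p ≤ (Γ.neighborSet v).ncard + 1) ∧
      ∀ a b c d, a ≠ b → Γ.Adj a c → Γ.Adj b c → Γ.Adj a d → Γ.Adj b d → c = d := by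
  classical
  let e : Fin (p * p) ≃ ZMod p × ZMod p :=
    (Fintype.equivFinOfCardEq (by simp [ZMod.card])).symm
  let Γ : SimpleGraph (Fin (p * p)) :=
    { Adj := fun v w => v ≠ w ∧ (e v).2 + (e w).2 = (e v).1 * (e w).1
      symm := ⟨fun v w h => ⟨h.1.symm, by linear_combination h.2⟩⟩
      loopless := ⟨fun v h => h.1 rfl⟩ }
  refine ⟨Γ, ?_, ?_⟩
  · intro v
    let g : ZMod p → Fin (p * p) := fun c => e.symm (c, (e v).1 * c - (e v).2)
    have hg : Function.Injective g := by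
      intro c d h
      have := congrArg (fun z => (e z).1) h
      simpa [g] using this
    have hsub : Set.range g ⊆ insert v (Γ.neighborSet v) := by
      rintro _ ⟨c, rfl⟩
      by_cases h : g c = v
      · exact Or.inl h
      · right
        refine ⟨fun h' => h h'.symm, ?_⟩
        simp [g]
    have h1 : (Set.range g).ncard = p := by
      rw [← Set.image_univ, Set.ncard_image_of_injective _ hg, Set.ncard_univ]
      simp
    calc p = (Set.range g).ncard := h1.symm
      _ ≤ (insert v (Γ.neighborSet v)).ncard := Set.ncard_le_ncard hsub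
      _ ≤ _ := Set.ncard_insert_le _ _
  · intro a b c d hab hac hbc had hbd
    have h1 := hac.2
    have h2 := hbc.2
    have h3 := had.2
    have h4 := hbd.2
    have hne : (e a).1 ≠ (e b).1 := by
      intro h
      apply hab
      apply e.injective
      refine Prod.ext h ?_
      have : (e a).2 + (e c).2 = (e b).2 + (e c).2 := by rw [h1, h2, h]
      exact add_right_cancel this
    have h5 : ((e a).1 - (e b).1) * ((e c).1 - (e d).1) = 0 := by
      linear_combination h2 - h1 + h3 - h4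
    have h6 : (e c).1 = (e d).1 := by
      rcases mul_eq_zero.1 h5 with h | h
      · exact absurd (sub_eq_zero.1 h) hne
      · exact sub_eq_zero.1 h
    apply e.injective
    refine Prod.ext h6 ?_
    have : (e a).2 + (e c).2 = (e a).2 + (e d).2 := by rw [h1, h3, h6]
    exact add_left_cancel this

lemma ncard_Ico_fin (n a b : ℕ) : {v : Fin n | a ≤ v.val ∧ v.val < b}.ncard ≤ b - a := by
  have : {v : Fin n | a ≤ v.val ∧ v.val < b}.ncard ≤ (↑(Finset.Ico a b) : Set ℕ).ncard := by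
    apply Set.ncard_le_ncard_of_injOn (fun v => v.val)
    · intro v hv
      simpa using hv
    · intro v _ w _ h
      exact Fin.ext h
  rwa [Set.ncard_coe_finset, Nat.card_Ico] at this

/-- The host graph. -/
def host (N m n : ℕ) (Γ : SimpleGraph (Fin N)) : SimpleGraph (Fin n) where
  Adj v w :=
    (¬ (v.val < N ∧ w.val < N) ∧ ¬ (N ≤ v.val ∧ v.val < N + m ∧ N ≤ w.val ∧ w.val < N + m) ∧
      ¬ (N + m ≤ v.val ∧ N + m ≤ w.val)) ∨
    ∃ (hv : v.val < N) (hw : w.val < N), Γ.Adj ⟨v.val, hv⟩ ⟨w.val, hw⟩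
  symm := ⟨by
    rintro v w (h | ⟨hv, hw, h⟩)
    · left; omega
    · right; exact ⟨hw, hv, h.symm⟩⟩
  loopless := ⟨by
    rintro v (h | ⟨hv, hw, h⟩)
    · omega
    · exact Γ.loopless.irrefl _ h⟩

lemma host_degree (r m : ℕ) (hrm : r ≤ m) (Γ : SimpleGraph (Fin (m + r)))
    (hΓ : ∀ v, r ≤ (Γ.neighborSet v).ncard) (v : Fin (3 * m)) :
    2 * m ≤ ((host (m + r) m (3 * m) Γ).neighborSet v).ncard := by
  classical
  set G := host (m + r) m (3 * m) Γ with hG
  have hsum : (G.neighborSet v).ncard + (G.neighborSet v)ᶜ.ncard = 3 * m := by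
    rw [Set.ncard_add_ncard_compl]; simp
  suffices h : (G.neighborSet v)ᶜ.ncard ≤ m by omega
  by_cases h1 : v.val < m + r
  · let ι : Fin (m + r) → Fin (3 * m) := fun w => ⟨w.val, by omega⟩
    have hsub : (G.neighborSet v)ᶜ ⊆ ι '' (Γ.neighborSet ⟨v.val, h1⟩)ᶜ := by
      intro w hw
      simp only [Set.mem_compl_iff, mem_neighborSet, hG, host, not_or] at hw
      have hwN : w.val < m + r := by
        have := hw.1
        omega
      refine ⟨⟨w.val, hwN⟩, ?_, Fin.ext rfl⟩
      intro hadj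
      exact hw.2 ⟨h1, hwN, hadj⟩
    have h2 : (Γ.neighborSet ⟨v.val, h1⟩).ncard + (Γ.neighborSet ⟨v.val, h1⟩)ᶜ.ncard = m + r := by
      rw [Set.ncard_add_ncard_compl]; simp
    have h3 := hΓ ⟨v.val, h1⟩
    have h4 := (Set.ncard_le_ncard hsub).trans (Set.ncard_image_le (f := ι))
    omega
  · by_cases h2 : v.val < m + r + m
    · have hsub : (G.neighborSet v)ᶜ ⊆ {w : Fin (3 * m) | m + r ≤ w.val ∧ w.val < m + r + m} := by
        intro w hw
        simp only [Set.mem_compl_iff, mem_neighborSet, hG, host, not_or] at hw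
        have := hw.1
        simp only [Set.mem_ofPred_eq]
        omega
      have := (Set.ncard_le_ncard hsub).trans (ncard_Ico_fin _ _ _)
      omega
    · have hsub : (G.neighborSet v)ᶜ ⊆ {w : Fin (3 * m) | m + r + m ≤ w.val ∧ w.val < 3 * m} := by
        intro w hw
        simp only [Set.mem_compl_iff, mem_neighborSet, hG, host, not_or] at hw
        have := hw.1
        have := w.isLt
        simp only [Set.mem_ofPred_eq]
        omega
      have := (Set.ncard_le_ncard hsub).trans (ncard_Ico_fin _ _ _)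
      omega

lemma host_copy {N m n : ℕ} (Γ : SimpleGraph (Fin N))
    (hΓ : ∀ a b c d, a ≠ b → Γ.Adj a c → Γ.Adj b c → Γ.Adj a d → Γ.Adj b d → c = d)
    (f : Fin (3 * 2) ↪o Fin n) (hf : ∀ a b, octa.Adj a b → (host N m n Γ).Adj (f a) (f b)) :
    N + m ≤ (f ⟨4, by norm_num⟩).val := by
  by_contra hcon
  have lt : ∀ a b : Fin (3 * 2), a.val < b.val → (f a).val < (f b).val := fun a b h =>
    f.strictMono (Fin.lt_def.2 h)
  have l01 := lt ⟨0, by norm_num⟩ ⟨1, by norm_num⟩ (by norm_num)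
  have l12 := lt ⟨1, by norm_num⟩ ⟨2, by norm_num⟩ (by norm_num)
  have l23 := lt ⟨2, by norm_num⟩ ⟨3, by norm_num⟩ (by norm_num)
  have l34 := lt ⟨3, by norm_num⟩ ⟨4, by norm_num⟩ (by norm_num)
  have a34 := hf ⟨3, by norm_num⟩ ⟨4, by norm_num⟩ ((octa_adj _ _).2 (by norm_num))
  have h3 : (f ⟨3, by norm_num⟩).val < N := by
    rcases a34 with h | ⟨h, _, _⟩
    · omega
    · exact h
  have key : ∀ a b : Fin (3 * 2), octa.Adj a b → ∀ (ha : (f a).val < N) (hb : (f b).val < N),
      Γ.Adj ⟨_, ha⟩ ⟨_, hb⟩ := by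
    intro a b hab ha hb
    rcases hf a b hab with h | ⟨_, _, h⟩
    · exact absurd ⟨ha, hb⟩ h.1
    · exact h
  have h2 : (f ⟨2, by norm_num⟩).val < N := by omega
  have h1 : (f ⟨1, by norm_num⟩).val < N := by omega
  have h0 : (f ⟨0, by norm_num⟩).val < N := by omega
  have := hΓ ⟨_, h0⟩ ⟨_, h1⟩ ⟨_, h2⟩ ⟨_, h3⟩ (fun h => absurd (Fin.mk.inj h) (ne_of_lt l01))
    (key _ _ ((octa_adj _ _).2 (by norm_num)) h0 h2)
    (key _ _ ((octa_adj _ _).2 (by norm_num)) h1 h2)
    (key _ _ ((octa_adj _ _).2 (by norm_num)) h0 h3)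
    (key _ _ ((octa_adj _ _).2 (by norm_num)) h1 h3)
  have := congrArg Fin.val this
  simp only at this
  omega

lemma uncovered_lower (r m : ℕ) (hrm : r ≤ m) (Γ : SimpleGraph (Fin (m + r)))
    (hΓ : ∀ a b c d, a ≠ b → Γ.Adj a c → Γ.Adj b c → Γ.Adj a d → Γ.Adj b d → c = d)
    (T : Set (Fin (3 * 2) ↪o Fin (3 * m))) (hT : IsOrdTiling octa (host (m + r) m (3 * m) Γ) T) :
    3 * r ≤ (uncoveredVerts T).ncard := by
  classical
  have hfin : Finite (Fin (3 * 2) ↪o Fin (3 * m)) :=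
    Finite.of_injective (fun f => (f : Fin (3 * 2) → Fin (3 * m))) DFunLike.coe_injective
  -- covered vertices
  have hcov : (uncoveredVerts T)ᶜ.ncard ≤ 6 * T.ncard := by
    have hsub : (uncoveredVerts T)ᶜ ⊆
        (fun z : (Fin (3 * 2) ↪o Fin (3 * m)) × Fin (3 * 2) => z.1 z.2) '' (T ×ˢ Set.univ) := by
      intro v hv
      simp only [uncoveredVerts, Set.mem_compl_iff, Set.mem_ofPred_eq, not_forall, not_not] at hv
      obtain ⟨f, hf, a, ha⟩ := hv
      exact ⟨(f, a), ⟨hf, trivial⟩, ha⟩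
    have := (Set.ncard_le_ncard hsub).trans Set.ncard_image_le
    rw [Set.ncard_prod, Set.ncard_univ] at this
    simp at this
    omega
  have htop : 2 * T.ncard ≤ m - r := by
    let S : Set (Fin (3 * 2)) := {⟨4, by norm_num⟩, ⟨5, by norm_num⟩}
    have hS : S.ncard = 2 := Set.ncard_pair (by simp)
    have h1 : (T ×ˢ S).ncard ≤ {v : Fin (3 * m) | m + r + m ≤ v.val ∧ v.val < 3 * m}.ncard := by
      apply Set.ncard_le_ncard_of_injOn
        (fun z : (Fin (3 * 2) ↪o Fin (3 * m)) × Fin (3 * 2) => z.1 z.2)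
      · rintro ⟨f, a⟩ ⟨hf, ha⟩
        have h4 := host_copy Γ hΓ f (hT.1 f hf)
        refine ⟨?_, Fin.isLt _⟩
        rcases ha with ha | ha
        · simp only at ha; subst ha; exact h4
        · simp only [Set.mem_singleton_iff] at ha
          subst ha
          have : (f ⟨4, by norm_num⟩).val < (f ⟨5, by norm_num⟩).val :=
            f.strictMono (Fin.lt_def.2 (by norm_num))
          simp only
          omega
      · rintro ⟨f, a⟩ ⟨hf, _⟩ ⟨g, b⟩ ⟨hg, _⟩ h
        simp only at h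
        have hfg : f = g := by
          by_contra hne
          have hd := hT.2 hf hg hne
          exact Set.disjoint_left.1 hd ⟨a, rfl⟩ ⟨b, h.symm⟩
        subst hfg
        rw [f.injective h]
    have h2 := h1.trans (ncard_Ico_fin _ _ _)
    rw [Set.ncard_prod, hS] at h2
    omega
  have hsum : (uncoveredVerts T).ncard + (uncoveredVerts T)ᶜ.ncard = 3 * m := by
    rw [Set.ncard_add_ncard_compl]; simp
  omega

theorem main : ∃ H : SimpleGraph (Fin (3 * 2)), (∀ a b, H.Adj a b ↔ a.val / 2 ≠ b.val / 2) ∧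
    ∀ C : ℕ, ∃ (n : ℕ) (G : SimpleGraph (Fin n)),
      (∀ v, (1 - 1 / ordCritChrom H) * (n : ℝ) ≤ ((G.neighborSet v).ncard : ℝ)) ∧
      ∀ T : Set (Fin (3 * 2) ↪o Fin n), IsOrdTiling H G T → C < (uncoveredVerts T).ncard := by
  refine ⟨octa, octa_adj, fun C => ?_⟩
  obtain ⟨p, hCp, hp⟩ := Nat.exists_infinite_primes (C + 2)
  have := Fact.mk hp
  obtain ⟨r, rfl⟩ : ∃ r, p = r + 1 := ⟨p - 1, by omega⟩
  obtain ⟨Γ, hΓ1, hΓ2⟩ := exists_c4free (r + 1)
  have hN : (r + 1) * (r + 1) = (r * r + r + 1) + r := by ring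
  revert Γ
  rw [hN]
  intro Γ hΓ1 hΓ2
  have hrm : r ≤ r * r + r + 1 := by omega
  generalize r * r + r + 1 = m at Γ hΓ1 hΓ2 hrm
  refine ⟨3 * m, host (m + r) m (3 * m) Γ, fun v => ?_, fun T hT => ?_⟩
  · have h := host_degree r m hrm Γ (fun w => by have := hΓ1 w; omega) v
    have h' : (2 * m : ℝ) ≤ (((host (m + r) m (3 * m) Γ).neighborSet v).ncard : ℝ) := by
      exact_mod_cast h
    obtain ⟨h1, h3⟩ := ordCrit_bounds
    have h4 : 1 / 3 ≤ 1 / ordCritChrom octa := one_div_le_one_div_of_le (by linarith) h3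
    have hm0 : (0 : ℝ) ≤ m := Nat.cast_nonneg _
    push_cast
    nlinarith
  · have := uncovered_lower r m hrm Γ hΓ2 T hT
    omega

end Pool.Agent.P.MP_ced62d_co
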