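import Pool.Agent.P.MP_ced62d_co.Main

namespace Pool.Agent.P.MP_ced62d_co

open SimpleGraph

/-- Position along the path of each vertex. -/
def pathPos : Fin (3 * 3) → Fin 9 := ![3, 1, 8, 4, 2, 6, 7, 5, 0]

/-- The ordered path 8-1-4-0-3-7-5-6-2. -/
def opath : SimpleGraph (Fin (3 * 3)) := (pathGraph 9).comap pathPos

lemma opath_adj (a b : Fin (3 * 3)) : opath.Adj a b ↔
    (pathPos a).val + 1 = (pathPos b).val ∨ (pathPos b).val + 1 = (pathPos a).val := by
  simp only [opath, comap_adj, pathGraph_adj]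

lemma opath_block (a b : Fin (3 * 3)) (h : opath.Adj a b) : a.val / 3 ≠ b.val / 3 := by
  rw [opath_adj] at h
  revert a b
  decide

lemma pathPos_bij : Function.Bijective pathPos := by
  decide

lemma opath_bottle_top : IsBottlegraph opath (⊤ : SimpleGraph (Fin 3)) := by
  refine ⟨3, id, by norm_num, Function.surjective_id, fun x y => by simp, ?_⟩
  intro σ φ _
  refine ⟨3, by norm_num, {OrderEmbedding.ofStrictMono id strictMono_id}, ⟨?_, ?_⟩, ?_⟩
  · intro f hf a b hab
    rw [Set.mem_singleton_iff] at hf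
    subst hf
    have := opath_block a b hab
    simpa [Fin.ext_iff, Fin.coe_divNat] using this
  · exact Set.pairwiseDisjoint_singleton _ _
  · ext v
    simp [uncoveredVerts]

lemma opath_bottle_adj {m : ℕ} {B : SimpleGraph (Fin m)} (hB : IsBottlegraph opath B) :
    ∃ x y, B.Adj x y := by
  obtain ⟨k, p, hk, hp, hadj, hall⟩ := hB
  by_cases hk1 : k = 1
  · subst hk1
    obtain ⟨t, ht, T, ⟨hT, _⟩, hU⟩ := hall 1 1 (fun x y h => by
      exfalso
      have := Subsingleton.elim ((1 : Equiv.Perm (Fin 1)) (p x)) ((1 : Equiv.Perm (Fin 1)) (p y))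
      exact absurd h (by rw [this]; exact lt_irrefl _))
    obtain ⟨x0, _⟩ := hp 0
    have hm : 0 < m * t := Nat.mul_pos x0.pos ht
    have : (⟨0, hm⟩ : Fin (m * t)) ∉ uncoveredVerts T := by rw [hU]; exact Set.notMem_empty _
    simp only [uncoveredVerts, Set.mem_ofPred_eq, not_forall] at this
    obtain ⟨f, hf, _⟩ := this
    have h := hT f hf ⟨0, by norm_num⟩ ⟨3, by norm_num⟩ ((opath_adj _ _).2 (by decide))
    exact ⟨_, _, h⟩
  · have hk2 : 1 < k := by omega
    obtain ⟨x, hx⟩ := hp ⟨0, hk⟩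
    obtain ⟨y, hy⟩ := hp ⟨1, hk2⟩
    refine ⟨x, y, (hadj x y).2 ?_⟩
    rw [hx, hy]
    simp

lemma opath_crit_bounds : 1 ≤ ordCritChrom opath ∧ ordCritChrom opath ≤ 3 := by
  have hlow : ∀ x ∈ {x : ℝ | ∃ (m : ℕ) (B : SimpleGraph (Fin m)),
      IsBottlegraph opath B ∧ x = critChrom B}, 1 ≤ x := by
    rintro x ⟨m, B, hB, rfl⟩
    obtain ⟨a, b, hab⟩ := opath_bottle_adj hB
    exact one_le_crit B hab
  have hmem : critChrom (⊤ : SimpleGraph (Fin 3)) ∈ {x : ℝ | ∃ (m : ℕ) (B : SimpleGraph (Fin m)),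
      IsBottlegraph opath B ∧ x = critChrom B} := ⟨3, ⊤, opath_bottle_top, rfl⟩
  exact ⟨le_csInf ⟨_, hmem⟩ hlow, (csInf_le ⟨1, hlow⟩ hmem).trans crit_top_le⟩

/-- Two vertices are joined when they differ by a power of two. -/
def powGraph (N : ℕ) : SimpleGraph (Fin N) where
  Adj v w := ∃ k : ℕ, v.val + 2 ^ k = w.val ∨ w.val + 2 ^ k = v.val
  symm := ⟨by
    rintro v w ⟨k, h⟩
    exact ⟨k, h.symm⟩⟩
  loopless := ⟨by
    rintro v ⟨k, h⟩
    have : 0 < 2 ^ k := Nat.two_pow_pos k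
    omega⟩

lemma powGraph_degree (N r : ℕ) (hr : 2 ^ r ≤ N) (v : Fin N) :
    r ≤ ((powGraph N).neighborSet v).ncard := by
  classical
  have hv := v.isLt
  have hk : ∀ k : Fin r, 2 * 2 ^ k.val ≤ N := fun k => by
    have : 2 ^ (k.val + 1) ≤ 2 ^ r := Nat.pow_le_pow_right (by norm_num) k.isLt
    rw [pow_succ] at this
    omega
  let g : Fin r → Fin N := fun k =>
    if h : v.val + 2 ^ k.val < N then ⟨v.val + 2 ^ k.val, h⟩ else ⟨v.val - 2 ^ k.val, by omega⟩
  have hgv : ∀ k, (v.val + 2 ^ k.val < N ∧ (g k).val = v.val + 2 ^ k.val) ∨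
      (¬ v.val + 2 ^ k.val < N ∧ (g k).val + 2 ^ k.val = v.val) := by
    intro k
    by_cases h : v.val + 2 ^ k.val < N
    · left
      exact ⟨h, by simp [g, h]⟩
    · right
      refine ⟨h, ?_⟩
      have := hk k
      simp only [g, h, dite_false]
      omega
  have hg : Function.Injective g := by
    intro k j h
    have hval := congrArg Fin.val h
    have p1 : 0 < 2 ^ k.val := Nat.two_pow_pos _
    have p2 : 0 < 2 ^ j.val := Nat.two_pow_pos _
    have : 2 ^ k.val = 2 ^ j.val := by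
      rcases hgv k with a | a <;> rcases hgv j with b | b <;> omega
    exact Fin.ext (Nat.pow_right_injective (le_refl 2) this)
  have hsub : Set.range g ⊆ (powGraph N).neighborSet v := by
    rintro _ ⟨k, rfl⟩
    refine ⟨k.val, ?_⟩
    rcases hgv k with a | a
    · exact Or.inl a.2.symm
    · exact Or.inr a.2
  have h1 : (Set.range g).ncard = r := by
    rw [← Set.image_univ, Set.ncard_image_of_injective _ hg, Set.ncard_univ]
    simp
  calc r = (Set.range g).ncard := h1.symm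
    _ ≤ _ := Set.ncard_le_ncard hsub

lemma powGraph_cross {N : ℕ} (a b c d : Fin N) (hab : a.val < b.val) (hbc : b.val < c.val)
    (hcd : c.val < d.val) (h1 : (powGraph N).Adj a c) (h2 : (powGraph N).Adj a d)
    (h3 : (powGraph N).Adj b d) : False := by
  obtain ⟨x, hx⟩ := h1
  obtain ⟨y, hy⟩ := h2
  obtain ⟨z, hz⟩ := h3
  have px : 0 < 2 ^ x := Nat.two_pow_pos _
  have py : 0 < 2 ^ y := Nat.two_pow_pos _
  have pz : 0 < 2 ^ z := Nat.two_pow_pos _
  have hxy : x < y := (Nat.pow_lt_pow_iff_right (a := 2) (by norm_num)).1 (by omega)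
  have hzy : z < y := (Nat.pow_lt_pow_iff_right (a := 2) (by norm_num)).1 (by omega)
  have e1 : 2 ^ (x + 1) ≤ 2 ^ y := Nat.pow_le_pow_right (by norm_num) hxy
  have e2 : 2 ^ (z + 1) ≤ 2 ^ y := Nat.pow_le_pow_right (by norm_num) hzy
  rw [pow_succ] at e1 e2
  omega

lemma path_host_degree (N q n : ℕ) (hN : N ≤ n) (hn : n ≤ N + q + q) (Γ : SimpleGraph (Fin N))
    (hΓ : ∀ v, N ≤ (Γ.neighborSet v).ncard + q) (v : Fin n) :
    n ≤ ((host N q n Γ).neighborSet v).ncard + q := by
  classical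
  set G := host N q n Γ with hG
  have hsum : (G.neighborSet v).ncard + (G.neighborSet v)ᶜ.ncard = n := by
    rw [Set.ncard_add_ncard_compl]; simp
  suffices h : (G.neighborSet v)ᶜ.ncard ≤ q by omega
  by_cases h1 : v.val < N
  · let ι : Fin N → Fin n := fun w => ⟨w.val, by omega⟩
    have hsub : (G.neighborSet v)ᶜ ⊆ ι '' (Γ.neighborSet ⟨v.val, h1⟩)ᶜ := by
      intro w hw
      simp only [Set.mem_compl_iff, mem_neighborSet, hG, host, not_or] at hw
      have hwN : w.val < N := by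
        have := hw.1
        omega
      refine ⟨⟨w.val, hwN⟩, ?_, Fin.ext rfl⟩
      intro hadj
      exact hw.2 ⟨h1, hwN, hadj⟩
    have h2 : (Γ.neighborSet ⟨v.val, h1⟩).ncard + (Γ.neighborSet ⟨v.val, h1⟩)ᶜ.ncard = N := by
      rw [Set.ncard_add_ncard_compl]; simp
    have h3 := hΓ ⟨v.val, h1⟩
    have h4 := (Set.ncard_le_ncard hsub).trans (Set.ncard_image_le (f := ι))
    omega
  · by_cases h2 : v.val < N + q
    · have hsub : (G.neighborSet v)ᶜ ⊆ {w : Fin n | N ≤ w.val ∧ w.val < N + q} := by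
        intro w hw
        simp only [Set.mem_compl_iff, mem_neighborSet, hG, host, not_or] at hw
        have := hw.1
        simp only [Set.mem_ofPred_eq]
        omega
      have := (Set.ncard_le_ncard hsub).trans (ncard_Ico_fin _ _ _)
      omega
    · have hsub : (G.neighborSet v)ᶜ ⊆ {w : Fin n | N + q ≤ w.val ∧ w.val < n} := by
        intro w hw
        simp only [Set.mem_compl_iff, mem_neighborSet, hG, host, not_or] at hw
        have := hw.1
        have := w.isLt
        simp only [Set.mem_ofPred_eq]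
        omega
      have := (Set.ncard_le_ncard hsub).trans (ncard_Ico_fin _ _ _)
      omega

lemma path_host_copy {N m n : ℕ} (f : Fin (3 * 3) ↪o Fin n)
    (hf : ∀ a b, opath.Adj a b → (host N m n (powGraph N)).Adj (f a) (f b)) :
    N + m ≤ (f ⟨6, by norm_num⟩).val := by
  by_contra hcon
  have lt : ∀ a b : Fin (3 * 3), a.val < b.val → (f a).val < (f b).val := fun a b h =>
    f.strictMono (Fin.lt_def.2 h)
  have l01 := lt ⟨0, by norm_num⟩ ⟨1, by norm_num⟩ (by norm_num)
  have l13 := lt ⟨1, by norm_num⟩ ⟨3, by norm_num⟩ (by norm_num)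
  have l34 := lt ⟨3, by norm_num⟩ ⟨4, by norm_num⟩ (by norm_num)
  have l45 := lt ⟨4, by norm_num⟩ ⟨5, by norm_num⟩ (by norm_num)
  have l56 := lt ⟨5, by norm_num⟩ ⟨6, by norm_num⟩ (by norm_num)
  have a56 := hf ⟨5, by norm_num⟩ ⟨6, by norm_num⟩ ((opath_adj _ _).2 (by decide))
  have h5 : (f ⟨5, by norm_num⟩).val < N := by
    rcases a56 with h | ⟨h, _, _⟩
    · omega
    · exact h
  have key : ∀ a b : Fin (3 * 3), opath.Adj a b → ∀ (ha : (f a).val < N) (hb : (f b).val < N),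
      (powGraph N).Adj ⟨_, ha⟩ ⟨_, hb⟩ := by
    intro a b hab ha hb
    rcases hf a b hab with h | ⟨_, _, h⟩
    · exact absurd ⟨ha, hb⟩ h.1
    · exact h
  have h4 : (f ⟨4, by norm_num⟩).val < N := by omega
  have h3 : (f ⟨3, by norm_num⟩).val < N := by omega
  have h1 : (f ⟨1, by norm_num⟩).val < N := by omega
  have h0 : (f ⟨0, by norm_num⟩).val < N := by omega
  exact powGraph_cross ⟨_, h0⟩ ⟨_, h1⟩ ⟨_, h3⟩ ⟨_, h4⟩ l01 l13 l34
    (key _ _ ((opath_adj _ _).2 (by decide)) h0 h3)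
    (key _ _ ((opath_adj _ _).2 (by decide)) h0 h4)
    (key _ _ ((opath_adj _ _).2 (by decide)) h1 h4)

lemma path_uncovered_lower (N q n : ℕ) (T : Set (Fin (3 * 3) ↪o Fin n))
    (hT : IsOrdTiling opath (host N q n (powGraph N)) T) :
    n ≤ (uncoveredVerts T).ncard + 3 * (n - (N + q)) := by
  classical
  have hfin : Finite (Fin (3 * 3) ↪o Fin n) :=
    Finite.of_injective (fun f => (f : Fin (3 * 3) → Fin n)) DFunLike.coe_injective
  have hcov : (uncoveredVerts T)ᶜ.ncard ≤ 9 * T.ncard := by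
    have hsub : (uncoveredVerts T)ᶜ ⊆
        (fun z : (Fin (3 * 3) ↪o Fin n) × Fin (3 * 3) => z.1 z.2) '' (T ×ˢ Set.univ) := by
      intro v hv
      simp only [uncoveredVerts, Set.mem_compl_iff, Set.mem_ofPred_eq, not_forall, not_not] at hv
      obtain ⟨f, hf, a, ha⟩ := hv
      exact ⟨(f, a), ⟨hf, trivial⟩, ha⟩
    have := (Set.ncard_le_ncard hsub).trans Set.ncard_image_le
    rw [Set.ncard_prod, Set.ncard_univ] at this
    simp at this
    omega
  have htop : 3 * T.ncard ≤ n - (N + q) := by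
    let S : Set (Fin (3 * 3)) := {a | 6 ≤ a.val}
    have hS : S.ncard = 3 := by
      have : S = (↑(Finset.univ.filter fun a : Fin (3 * 3) => 6 ≤ a.val) : Set _) := by
        ext a
        simp [S]
      rw [this, Set.ncard_coe_finset]
      decide
    have h1 : (T ×ˢ S).ncard ≤ {v : Fin n | N + q ≤ v.val ∧ v.val < n}.ncard := by
      apply Set.ncard_le_ncard_of_injOn
        (fun z : (Fin (3 * 3) ↪o Fin n) × Fin (3 * 3) => z.1 z.2)
      · rintro ⟨f, a⟩ ⟨hf, ha⟩
        have h6 := path_host_copy f (hT.1 f hf)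
        refine ⟨?_, Fin.isLt _⟩
        have : f ⟨6, by norm_num⟩ ≤ f a := f.monotone (Fin.le_def.2 ha)
        exact h6.trans (Fin.le_def.1 this)
      · rintro ⟨f, a⟩ ⟨hf, _⟩ ⟨g, b⟩ ⟨hg, _⟩ h
        simp only at h
        have hfg : f = g := by
          by_contra hne
          have hd := hT.2 hf hg hne
          exact Set.disjoint_left.1 hd ⟨a, rfl⟩ ⟨b, h.symm⟩
        subst hfg
        rw [f.injective h]
    have h2 := h1.trans (ncard_Ico_fin _ _ _)
    rw [Set.ncard_prod, hS] at h2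
    omega
  have hsum : (uncoveredVerts T).ncard + (uncoveredVerts T)ᶜ.ncard = n := by
    rw [Set.ncard_add_ncard_compl]; simp
  omega

theorem path_main : ∃ H : SimpleGraph (Fin (3 * 3)), Nonempty (H ≃g pathGraph 9) ∧
    ∀ n : ℕ, 16 ≤ n → ∃ G : SimpleGraph (Fin n),
      (∀ v, (1 - 1 / ordCritChrom H) * (n : ℝ) ≤ ((G.neighborSet v).ncard : ℝ)) ∧
      ∀ T : Set (Fin (3 * 3) ↪o Fin n), IsOrdTiling H G T →
        3 * Nat.log 2 n ≤ (uncoveredVerts T).ncard + 12 := by
  refine ⟨opath, ⟨Iso.comap (Equiv.ofBijective pathPos pathPos_bij) (pathGraph 9)⟩,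
    fun n hn => ?_⟩
  have hlog : 4 ≤ Nat.log 2 n := Nat.le_log_of_pow_le (by norm_num) (by omega)
  obtain ⟨r, hr⟩ : ∃ r, Nat.log 2 n = r + 4 := ⟨Nat.log 2 n - 4, by omega⟩
  have hpow : 2 ^ (r + 4) ≤ n := by
    rw [← hr]
    exact Nat.pow_log_le_self 2 (by omega)
  have hlt : r < 2 ^ r := Nat.lt_two_pow_self
  have e4 : 2 ^ (r + 4) = 16 * 2 ^ r := by ring
  have e2 : 2 ^ (r + 2) = 4 * 2 ^ r := by ring
  obtain ⟨q, hq⟩ : ∃ q, q = n / 3 := ⟨_, rfl⟩
  obtain ⟨N, hN⟩ : ∃ N, N = n - 2 * q + r := ⟨_, rfl⟩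
  refine ⟨host N q n (powGraph N), fun v => ?_, fun T hT => ?_⟩
  · have h := path_host_degree N q n (by omega) (by omega) (powGraph N)
      (fun w => by have := powGraph_degree N (r + 2) (by omega) w; omega) v
    have h0 : 2 * n ≤ 3 * ((host N q n (powGraph N)).neighborSet v).ncard := by omega
    have h' : (2 * n : ℝ) ≤ 3 * (((host N q n (powGraph N)).neighborSet v).ncard : ℝ) := by
      exact_mod_cast h0
    obtain ⟨h1, h3⟩ := opath_crit_bounds
    have h4 : 1 / 3 ≤ 1 / ordCritChrom opath := one_div_le_one_div_of_le (by linarith) h3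
    have hm0 : (0 : ℝ) ≤ n := Nat.cast_nonneg _
    nlinarith
  · have := path_uncovered_lower N q n T hT
    omega

end Pool.Agent.P.MP_ced62d_co
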